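import Mathlib
import Pool.Agent.Run7.h80.Sym.Full

/-!
# Lehmer's problem for all decomposable integer polynomials and Laurent polynomials

Let `h` be a Laurent polynomial with integer coefficients, not of the form
`± X ^ m + δ X ^ (-m) + c` with `δ = 0, 1, -1`. There is a set `E` of at most five algebraic numbers
of degree at most two, depending only on `h`, such that for every nonzero `g ∈ ℤ[X]`

`M(g ∘ h) ≥ exp (N / 400000)`, and `M(g ∘ h) ≥ 1.002` if `N > 0`,

where `N` is the number of complex zeros of `g`, with multiplicity, that are not in `E`.
In particular `M(g ∘ h) ≥ max (1.002, exp (deg g / 400000))` for all irreducible `g` of degree at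
least three. The constants do not depend on `g` and `h`.

The excluded shapes of `h` are necessary: the polynomials `g(X ^ m + c)` are all polynomials in
`X ^ m`, the Laurent polynomials `g(X ^ m + X ^ (-m))` are all reciprocal polynomials in `X ^ m`, and
`g(X - 1 / X)`, `g` even, gives all reciprocal polynomials in `- X ^ 2`. Some exceptional numbers are
also necessary because a linear `g` gives all Laurent polynomials.

Method. If `h(1/X)` is not `h(X)` and not `c - h(X)`, the inequality of Smyth and Schinzel is applied to
the pencil `h - t`. The reciprocal case `h(1/X) = h(X)` is the main point. Write `h = A / X ^ n` and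
`G(t) = log M(A - t X ^ n)`. The four steps are

1. `G(x) ≤ G(s) + G(t)` for all `x` on the segment between the complex numbers `s` and `t`
   (by counting the zeros of the pencil in all discs with Jensen's formula);
2. `|Im t| ≤ exp G(t) - exp (- G(t))` (the lemma of Schwarz and Pick for an outer function with the
   absolute value `1 / |A - t X ^ n|` on the unit circle);
3. every real interval of length `2 √2` contains a point `x` with `G(x) ≥ 0.0042` unless
   `A = a X ^ (2n) + c X ^ n + a`; otherwise the product of many members of the pencil gives an analytic
   function bounded by the reciprocal of the exterior map of the interval whose coefficients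
   contradict the first nonzero coefficient of `A`, because an interval of length `2 √2` has capacity
   `√2 / 2`;
4. if all zeros of `g` with small `G` are near an interval of length less than `2 √2`, an explicit
   auxiliary polynomial `Φ` with integer coefficients is at most `0.96` in absolute value on them, and
   the resultant of `g` and `Φ` is a nonzero integer.
-/

set_option autoImplicit false

open Polynomial LaurentPolynomial

namespace Pool.Agent.Results.MP_7ab245_nt.DecomposablePolynomials

/-- The Mahler measure of an integer polynomial. -/
noncomputable def M (f : ℤ[X]) : ℝ := (f.map (Int.castRingHom ℂ)).mahlerMeasure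

open Classical in
/-- The number of complex zeros of `g`, counted with multiplicity, that are not in the finite set
`E` of complex numbers. -/
noncomputable def zerosOutside (g : ℤ[X]) (E : Finset ℂ) : ℕ :=
  Multiset.card ((g.map (Int.castRingHom ℂ)).roots.filter fun z => z ∉ E)

/-- **Lehmer's problem for decomposable Laurent polynomials.** Here `T` is the variable of the
Laurent polynomials, `aeval h g` is the Laurent polynomial `g(h)`, and `F` is any polynomial that
differs from it by a power of the variable. -/
theorem result (h : ℤ[T;T⁻¹])
    (hh : ∀ ε δ c m : ℤ, |ε| = 1 → |δ| ≤ 1 →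
      h ≠ LaurentPolynomial.C ε * T m + LaurentPolynomial.C δ * T (-m) + LaurentPolynomial.C c) :
    (∃ E : Finset ℂ, E.card ≤ 5 ∧
      (∀ e ∈ E, ∃ q : ℤ[X], q ≠ 0 ∧ q.natDegree ≤ 2 ∧ aeval e q = 0) ∧
      ∀ (g F : ℤ[X]) (k : ℤ), g ≠ 0 → toLaurent F = T k * aeval h g →
        Real.exp (zerosOutside g E / 400000) ≤ M F ∧ (0 < zerosOutside g E → 1.002 ≤ M F)) ∧
    (∀ (g F : ℤ[X]) (k : ℤ), Irreducible g → 3 ≤ g.natDegree →
      toLaurent F = T k * aeval h g →
        Real.exp (g.natDegree / 400000) ≤ M F ∧ 1.002 ≤ M F) := by
  obtain ⟨E, hE, hb⟩ := Pool.Agent.Run7.h80.Sym.full h hh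
  refine ⟨⟨E, hE.1, hE.2, fun g F k hg hF => hb g F k hg hF⟩, fun g F k hg h3 hF => ?_⟩
  obtain ⟨b1, b2⟩ := hb g F k hg.ne_zero hF
  rw [Pool.Agent.Run7.h80.Sym.outE_irreducible hg h3 hE.2] at b1 b2
  exact ⟨b1, b2 (by omega)⟩

end Pool.Agent.Results.MP_7ab245_nt.DecomposablePolynomials
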