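import Mathlib
import Pool.Agent.Run7.h22.Fin

/-!
# Lehmer's problem for polynomials whose Galois group contains few complex conjugations
-/

set_option autoImplicit false

open Polynomial

namespace Pool.Agent.Results.MP_7ab245_nt.FewComplexConjugations

/-- the Mahler measure of an integer polynomial -/
noncomputable def M (f : ℤ[X]) : ℝ := (f.map (Int.castRingHom ℂ)).mahlerMeasure

/-- the splitting field over `ℚ` of an integer polynomial -/
abbrev L (f : ℤ[X]) : Type := (f.map (Int.castRingHom ℚ)).SplittingField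

/-- the complex conjugations of `f`: the elements `σ` of the Galois group of `f` over `ℚ` such that
`φ ∘ σ = conj ∘ φ` for some embedding `φ` of the splitting field in `ℂ` -/
def complexConjugations (f : ℤ[X]) : Set (L f ≃ₐ[ℚ] L f) :=
  {σ | ∃ φ : L f →+* ℂ, ∀ x, φ (σ x) = starRingEnd ℂ (φ x)}

/-- the number of the complex conjugations of `f` -/
noncomputable def k (f : ℤ[X]) : ℕ := (complexConjugations f).ncard

lemma one_le_k (f : ℤ[X]) : 1 ≤ k f := by
  have : NumberField (L f) := Pool.Agent.Run7.h22.numberField_splitting _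
  have : IsGalois ℚ (L f) := Pool.Agent.Run7.h22.isGalois_splitting _
  obtain ⟨φ⟩ : Nonempty (L f →ₐ[ℚ] ℂ) := ⟨IsAlgClosed.lift⟩
  obtain ⟨c, hc⟩ := Pool.Agent.Run7.h22.exists_cc φ
  exact (Set.ncard_pos (Set.toFinite _)).mpr ⟨c, (φ : L f →+* ℂ), hc⟩

/-- **Lehmer's problem for polynomials with few complex conjugations.** There is a constant `c > 0`
such that `M f ≥ min (2, exp (c (n / k) exp (-9 √(log 2k))))` for every irreducible integer polynomial
`f` of degree `n` with `M f > 1` and `k` complex conjugations. -/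
theorem result : ∃ c : ℝ, 0 < c ∧ ∀ f : ℤ[X], Irreducible f → 1 < M f →
    min 2 (Real.exp (c * (f.natDegree / k f) * Real.exp (-9 * Real.sqrt (Real.log (2 * k f))))) ≤
      M f := by
  obtain ⟨A, hA, h⟩ := Pool.Agent.Run7.h22.field_main
  refine ⟨1 / A, by positivity, ?_⟩
  intro f hf h1
  rcases le_or_gt 2 (M f) with h2 | h2
  · exact (min_le_left _ _).trans h2
  have h3 := Pool.Agent.Run7.h22.poly_main (A := A) (fun K _ _ _ α => h K α) f hf h1 h2
  have hk : (1:ℝ) ≤ k f := by exact_mod_cast one_le_k f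
  have h4 : (f.natDegree : ℝ) ≤ A * (k f * Real.exp (9 * Real.sqrt (Real.log (2 * k f)))) *
      Real.log (M f) := h3
  have hM : 0 < M f := by linarith
  refine (min_le_right _ _).trans ?_
  rw [← Real.le_log_iff_exp_le hM]
  set s := Real.sqrt (Real.log (2 * k f)) with hs
  have h5 : Real.exp (9 * s) * Real.exp (-9 * s) = 1 := by
    rw [← Real.exp_add]
    simp
  have h6 : 0 < Real.exp (-9 * s) := Real.exp_pos _
  calc 1 / A * (f.natDegree / k f) * Real.exp (-9 * s)
      ≤ 1 / A * ((A * (k f * Real.exp (9 * s)) * Real.log (M f)) / k f) * Real.exp (-9 * s) := by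
        gcongr
    _ = Real.log (M f) * (Real.exp (9 * s) * Real.exp (-9 * s)) := by
        field_simp
    _ = Real.log (M f) := by rw [h5, mul_one]

/-- Lehmer's inequality for the polynomials with at most `n ^ (1 - ε)` complex conjugations -/
theorem corollary (ε : ℝ) (hε : 0 < ε) : ∃ δ : ℝ, 0 < δ ∧ ∀ f : ℤ[X], Irreducible f → 1 < M f →
      (k f : ℝ) ≤ (f.natDegree : ℝ) ^ (1 - ε) → 1 + δ ≤ M f := by
  obtain ⟨c, hc, h⟩ := result
  set c' := c * Real.exp (-(ε * Real.log 2) - 81 / (4 * ε)) with hc'
  have hc'0 : 0 < c' := by positivity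
  refine ⟨min 1 c', by positivity, ?_⟩
  intro f hf h1 hkn
  rcases le_or_gt 2 (M f) with h2 | h2
  · have := min_le_left 1 c'
    linarith
  have hk1 : (1:ℝ) ≤ k f := by exact_mod_cast one_le_k f
  set n : ℝ := (f.natDegree : ℝ) with hn
  have hn1 : 1 ≤ n := by
    rcases Nat.eq_zero_or_pos f.natDegree with h0 | h0
    · exfalso
      have h3 := eq_C_of_natDegree_eq_zero h0
      have h4 : M f = |((f.coeff 0 : ℤ) : ℝ)| := by
        rw [M, h3, Polynomial.map_C, mahlerMeasure_const]
        simp
      rw [h4] at h1 h2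
      have h5 : 1 < |f.coeff 0| := by exact_mod_cast h1
      have h6 : |f.coeff 0| < 2 := by exact_mod_cast h2
      omega
    · rw [hn]
      exact_mod_cast h0
  have hn0 : 0 < n := by linarith
  have hk0 : (0:ℝ) < k f := by linarith
  have hkn' : (k f : ℝ) ≤ n := by
    refine hkn.trans ?_
    calc n ^ (1 - ε) ≤ n ^ (1:ℝ) := Real.rpow_le_rpow_of_exponent_le hn1 (by linarith)
      _ = n := Real.rpow_one n
  set y := Real.sqrt (Real.log (2 * n)) with hy
  have hl0 : 0 ≤ Real.log (2 * n) := Real.log_nonneg (by linarith)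
  have hy2 : y ^ 2 = Real.log (2 * n) := Real.sq_sqrt hl0
  have hratio : n ^ ε ≤ n / k f := by
    rw [le_div_iff₀ hk0]
    calc n ^ ε * k f ≤ n ^ ε * n ^ (1 - ε) := by gcongr
      _ = n := by rw [← Real.rpow_add hn0]; simp
  have hnε : n ^ ε = Real.exp (ε * (y ^ 2 - Real.log 2)) := by
    rw [Real.rpow_def_of_pos hn0, hy2, Real.log_mul (by norm_num) hn0.ne']
    congr 1
    ring
  have hs : Real.sqrt (Real.log (2 * k f)) ≤ y := by
    apply Real.sqrt_le_sqrt
    exact Real.log_le_log (by linarith) (by linarith)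
  have hmain : c' ≤ c * (n / k f) * Real.exp (-9 * Real.sqrt (Real.log (2 * k f))) := by
    have h3 : Real.exp (ε * (y ^ 2 - Real.log 2)) * Real.exp (-9 * y) ≤
        (n / k f) * Real.exp (-9 * Real.sqrt (Real.log (2 * k f))) := by
      apply mul_le_mul
      · rw [← hnε]; exact hratio
      · exact Real.exp_le_exp.mpr (by linarith)
      · exact (Real.exp_pos _).le
      · positivity
    have h4 : Real.exp (-(ε * Real.log 2) - 81 / (4 * ε)) ≤
        Real.exp (ε * (y ^ 2 - Real.log 2)) * Real.exp (-9 * y) := by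
      rw [← Real.exp_add]
      apply Real.exp_le_exp.mpr
      have h5 : ε * y ^ 2 - 9 * y + 81 / (4 * ε) = (2 * ε * y - 9) ^ 2 / (4 * ε) := by
        field_simp
        ring
      have h6 : 0 ≤ (2 * ε * y - 9) ^ 2 / (4 * ε) := by positivity
      linarith
    rw [hc', mul_assoc c]
    exact mul_le_mul_of_nonneg_left (h4.trans h3) hc.le
  have hfin := h f hf h1
  have h3 : min 2 (Real.exp (c * (n / k f) * Real.exp (-9 * Real.sqrt (Real.log (2 * k f))))) =
      Real.exp (c * (n / k f) * Real.exp (-9 * Real.sqrt (Real.log (2 * k f)))) := by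
    apply min_eq_right
    by_contra h4
    push Not at h4
    rw [min_eq_left h4.le] at hfin
    linarith
  rw [h3] at hfin
  have h4 : 1 + c' ≤ M f := by
    calc 1 + c' ≤ Real.exp c' := by linarith [Real.add_one_le_exp c']
      _ ≤ _ := Real.exp_le_exp.mpr hmain
      _ ≤ M f := hfin
  have := min_le_right 1 c'
  linarith

end Pool.Agent.Results.MP_7ab245_nt.FewComplexConjugations
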