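import Mathlib
import Pool.Agent.Run7.h22.Rel7

/-!
# Lehmer's problem for polynomials of small degree over a field with few Frobenius automorphisms

Let `f` be an irreducible integer polynomial of degree `n` with Mahler measure `M(f) > 1`, let `K` be a
Galois extension of `ℚ` of finite degree which contains a zero of `f` (for instance the splitting field
of `f`), let `p` be a prime number that is unramified in `K` and let `a ≥ 1`. Let `E` be any subfield of
`K` that is normal over `ℚ` (in the applications much smaller than the splitting field of `f`), let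
`k` be the number of the automorphisms of `E` that are `a`-th powers of Frobenius automorphisms above
`p`, and let the zeros of `f` have degree at most `D` over the field generated by `E` and the roots of
unity of `K` of order prime to `p`. Then

  `log M(f) ≥ c n / (p ^ (a + 2) D ^ 3 k exp (17 √(log (2 k) log (2 D))))`

with an absolute constant `c > 0` (if `M(f) < 2`). So Lehmer's inequality holds with a power of `n` to
spare for all `f` for which some field `E` satisfies `k ≤ n ^ (1 - ε)` with `D` and `p ^ a` bounded.

In particular (`D ≤ 2`), for every `f`, let `E` be the field generated by the numbers `α + 1 / α`, `α`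
a zero of `f`. If `f` is reciprocal this is the splitting field of the trace polynomial of `f`; the
Galois group of `f` can be larger by a factor `2 ^ (n / 2)`. Then
`log M(f) ≥ c n / (p ^ (a + 2) k exp (21 √(log (2 k))))` where `k` is the number of the `a`-th powers of
Frobenius automorphisms of `E` above `p` only. For `k = 1`, for example if the trace polynomial has an
abelian Galois group, this is `log M(f) ≥ c n / p ^ (a + 2)`.

Method. Let `B_1, …, B_r` be multiplicatively independent conjugates of a zero `α`. The number of the
joint images `(σ B_1, …, σ B_r)` under the Frobenius automorphisms `σ` of `K` is at most `k D ^ r`. So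
there is a `σ` such that `B_j ^ q ≡ σ B_j`, `q = p ^ a`, for all `j`, modulo primes that contain a
proportion `1 / (k D ^ r)` of the norm of `p`. The operator `q - σ` is injective on the lattice of the
conjugates; so the many products `∏ (B_j ^ q / σ B_j) ^ (a_j)` of small height are different, and
congruent to one modulo these primes. This contradicts an energy inequality if the height is too
small. If there are no `r` independent conjugates then a power of `α` with exponent at most `p D` lies
in a normal extension of `ℚ` of degree at most `D ^ (r - 1)` over the field generated by `E` and roots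
of unity, which has at most `k D ^ (r - 1)` Frobenius automorphisms, and the theorem for `D = 1` applies
(it uses the elements of minimal height in a group of units and Dobrowolski's theorem).
-/

set_option autoImplicit false

open Polynomial NumberField

namespace Pool.Agent.Results.MP_7ab245_nt.FewFrobeniusTraceField

/-- the Mahler measure of an integer polynomial -/
noncomputable def M (f : ℤ[X]) : ℝ := (f.map (Int.castRingHom ℂ)).mahlerMeasure

section

variable {K : Type} [Field K] [NumberField K]

variable (K) in
/-- the number `p` is not contained in the square of a prime ideal of the number field `K`; for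
a prime number `p` this means that `p` is unramified in `K` -/
def Unramified (p : ℕ) : Prop :=
  ∀ 𝔓 : Ideal (𝓞 K), 𝔓.IsPrime → (p : 𝓞 K) ∈ 𝔓 → (p : 𝓞 K) ∉ 𝔓 ^ 2

/-- the subfield `E` is normal over `ℚ` -/
def IsNormal (E : IntermediateField ℚ K) : Prop := Normal ℚ E

/-- the automorphisms of a subfield `E` which are congruent to the map `x ↦ x ^ (p ^ a)` modulo some
prime ideal of `E` above `p`; if `p` is unramified they are the `a`-th powers of the Frobenius
automorphisms above `p` -/
def frobenii (E : IntermediateField ℚ K) (p a : ℕ) : Set (E ≃ₐ[ℚ] E) :=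
  {σ | ∃ 𝔓 : Ideal (𝓞 E), 𝔓.IsPrime ∧ (p : 𝓞 E) ∈ 𝔓 ∧ ∀ x : 𝓞 E, σ • x - x ^ (p ^ a) ∈ 𝔓}

/-- the number of these automorphisms -/
noncomputable def k (E : IntermediateField ℚ K) (p a : ℕ) : ℕ := (frobenii E p a).ncard

/-- the field generated by `E` and the `p`-th powers of the roots of unity of `K` (if `p` is
unramified, these are the roots of unity of order prime to `p`, except for signs) -/
def withRoots (E : IntermediateField ℚ K) (p : ℕ) : IntermediateField ℚ K :=
  E ⊔ IntermediateField.adjoin ℚ {x | ∃ ζ : K, (∃ m : ℕ, 0 < m ∧ ζ ^ m = 1) ∧ x = ζ ^ p}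

/-- all zeros of `f` in `K` have degree at most `D` over `withRoots E p` -/
def DegreeLE (f : ℤ[X]) (E : IntermediateField ℚ K) (p D : ℕ) : Prop :=
  ∀ α : K, aeval α f = 0 → (minpoly (withRoots E p) α).natDegree ≤ D

variable (K) in
/-- the field generated by the numbers `α + 1 / α`, `α` a zero of `f` in `K` -/
def traceField (f : ℤ[X]) : IntermediateField ℚ K :=
  IntermediateField.adjoin ℚ {x | ∃ α : K, aeval α f = 0 ∧ x = α + α⁻¹}

end

/-- the number `min (2, exp (c (n / (p ^ (a + 2) D ^ 3 k)) exp (-17 √(log (2 k) log (2 D)))))` -/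
noncomputable def bound (c : ℝ) (n p a D k : ℕ) : ℝ :=
  min 2 (Real.exp (c * (n / ((p : ℝ) ^ (a + 2) * (D : ℝ) ^ 3 * k)) *
    Real.exp (-17 * Real.sqrt (Real.log (2 * k) * Real.log (2 * D)))))

/-- the number `min (2, exp (c (n / (p ^ (a + 2) k)) exp (-21 √(log (2 k)))))` -/
noncomputable def traceBound (c : ℝ) (n p a k : ℕ) : ℝ :=
  min 2 (Real.exp (c * (n / ((p : ℝ) ^ (a + 2) * k)) * Real.exp (-21 * Real.sqrt (Real.log (2 * k)))))

/-- **Lehmer's problem for polynomials of small degree over a field with few Frobenius automorphisms.**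
There is an absolute constant `c > 0` such that for every prime number `p`, every `a ≥ 1`, every Galois
number field `K` in which `p` is unramified and every irreducible integer polynomial `f` of degree `n`
with `M f > 1` and a zero in `K`:
* for every subfield `E` of `K` which is normal over `ℚ` and all `D` such that the zeros of `f` have
  degree at most `D` over `withRoots E p`,
  `M f ≥ min (2, exp (c (n / (p ^ (a + 2) D ^ 3 k)) exp (-17 √(log (2 k) log (2 D)))))`, `k = k E p a`;
* the field `traceField K f` is normal over `ℚ`, and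
  `M f ≥ min (2, exp (c (n / (p ^ (a + 2) k)) exp (-21 √(log (2 k)))))`, `k = k (traceField K f) p a`. -/
theorem result : ∃ c : ℝ, 0 < c ∧ ∀ p a : ℕ, p.Prime → 1 ≤ a → ∀ (K : Type) [Field K] [NumberField K]
    [IsGalois ℚ K], Unramified K p → ∀ f : ℤ[X], Irreducible f → (∃ α : K, aeval α f = 0) → 1 < M f →
    (∀ E : IntermediateField ℚ K, IsNormal E → ∀ D : ℕ, DegreeLE f E p D →
      bound c f.natDegree p a D (k E p a) ≤ M f) ∧
    IsNormal (traceField K f) ∧ traceBound c f.natDegree p a (k (traceField K f) p a) ≤ M f := by
  obtain ⟨A, hA, h⟩ := Pool.Agent.Run7.h22.poly_rel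
  refine ⟨1 / (8 * A), by positivity, ?_⟩
  intro p a hp ha K _ _ _ hunr f hf ⟨α, hα⟩ h1
  have hp0 : (0:ℝ) < p := by exact_mod_cast hp.pos
  have hM : 0 < M f := by linarith
  have hlogM : 0 < Real.log (M f) := Real.log_pos h1
  have key : ∀ (E : IntermediateField ℚ K), Normal ℚ E → ∀ D : ℕ, M f < 2 →
      (minpoly (withRoots E p) α).natDegree ≤ D →
      1 / A * (f.natDegree / ((p : ℝ) ^ (a + 2) * (D : ℝ) ^ 3 * k E p a)) *
        Real.exp (-17 * Real.sqrt (Real.log (2 * k E p a) * Real.log (2 * D))) ≤ Real.log (M f) := by
    intro E hE D h2 hD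
    have h4 : (f.natDegree : ℝ) ≤ A * (p : ℝ) ^ (a + 2) *
        ((D : ℝ) ^ 3 * k E p a * Real.exp (17 * Real.sqrt (Real.log (2 * k E p a) *
          Real.log (2 * D)))) * Real.log (M f) := h p a hp ha K hunr f hf h1 h2 α hα E D hD
    set s := Real.sqrt (Real.log (2 * k E p a) * Real.log (2 * D)) with hs
    rcases Nat.eq_zero_or_pos (k E p a) with hk | hk
    · rw [hk]
      simp only [Nat.cast_zero, mul_zero, div_zero, zero_mul]
      exact hlogM.le
    rcases Nat.eq_zero_or_pos D with hD0 | hD0
    · rw [hD0]
      simp only [Nat.cast_zero, mul_zero, ne_eq, OfNat.ofNat_ne_zero, not_false_eq_true, zero_pow,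
        zero_mul, div_zero]
      exact hlogM.le
    have hk0 : (0:ℝ) < k E p a := by exact_mod_cast hk
    have hD1 : (0:ℝ) < D := by exact_mod_cast hD0
    have h5 : Real.exp (17 * s) * Real.exp (-17 * s) = 1 := by
      rw [← Real.exp_add]
      simp
    have h6 : 0 < Real.exp (-17 * s) := Real.exp_pos _
    calc 1 / A * (f.natDegree / ((p : ℝ) ^ (a + 2) * (D : ℝ) ^ 3 * k E p a)) * Real.exp (-17 * s)
        ≤ 1 / A * ((A * (p : ℝ) ^ (a + 2) * ((D : ℝ) ^ 3 * k E p a * Real.exp (17 * s)) *
          Real.log (M f)) / ((p : ℝ) ^ (a + 2) * (D : ℝ) ^ 3 * k E p a)) * Real.exp (-17 * s) := by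
          gcongr
      _ = Real.log (M f) * (Real.exp (17 * s) * Real.exp (-17 * s)) := by
          field_simp
      _ = Real.log (M f) := by rw [h5, mul_one]
  refine ⟨?_, Pool.Agent.Run7.h22.trE_normal K f, ?_⟩
  · intro E hE D hD
    unfold bound
    rcases le_or_gt 2 (M f) with h2 | h2
    · exact (min_le_left _ _).trans h2
    refine (min_le_right _ _).trans ?_
    rw [← Real.le_log_iff_exp_le hM]
    refine le_trans ?_ (key E hE D h2 (hD α hα))
    apply mul_le_mul_of_nonneg_right _ (Real.exp_pos _).le
    apply mul_le_mul_of_nonneg_right _ (by positivity)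
    apply one_div_le_one_div_of_le hA
    linarith
  · unfold traceBound
    rcases le_or_gt 2 (M f) with h2 | h2
    · exact (min_le_left _ _).trans h2
    refine (min_le_right _ _).trans ?_
    rw [← Real.le_log_iff_exp_le hM]
    have hα0 : α ≠ 0 := (Pool.Agent.Run7.h22.unit_of_root f hf h1 h2 hα).1.1
    have h3 := key (traceField K f) (Pool.Agent.Run7.h22.trE_normal K f) 2 h2
      (Pool.Agent.Run7.h22.trE_degree p f hα0 hα)
    refine le_trans ?_ h3
    set κ := k (traceField K f) p a with hκ
    rcases Nat.eq_zero_or_pos κ with hk | hk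
    · rw [hk]
      simp
    have hk0 : (0:ℝ) < κ := by exact_mod_cast hk
    have hk1 : (1:ℝ) ≤ κ := by exact_mod_cast hk
    have hlog : 0 ≤ Real.log (2 * κ) := Real.log_nonneg (by linarith)
    have h24 : (2 * ((2 : ℕ) : ℝ)) = 4 := by norm_num
    rw [h24]
    have hsq : Real.sqrt (Real.log (2 * κ) * Real.log 4) ≤ 1.18 * Real.sqrt (Real.log (2 * κ)) := by
      have h5 : Real.log 4 ≤ 1.18 ^ 2 := by
        have h6 : (4:ℝ) = 2 ^ 2 := by norm_num
        rw [h6, Real.log_pow]
        have := Real.log_two_lt_d9
        push_cast
        norm_num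
        linarith
      rw [Real.sqrt_mul hlog, mul_comm]
      apply mul_le_mul_of_nonneg_right _ (Real.sqrt_nonneg _)
      calc Real.sqrt (Real.log 4) ≤ Real.sqrt (1.18 ^ 2) := Real.sqrt_le_sqrt h5
        _ = 1.18 := Real.sqrt_sq (by norm_num)
    have hexp : Real.exp (-21 * Real.sqrt (Real.log (2 * κ))) ≤
        Real.exp (-17 * Real.sqrt (Real.log (2 * κ) * Real.log 4)) := by
      apply Real.exp_le_exp.mpr
      have := Real.sqrt_nonneg (Real.log (2 * κ))
      linarith
    have heq : 1 / (8 * A) * (f.natDegree / ((p : ℝ) ^ (a + 2) * κ)) =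
        1 / A * (f.natDegree / ((p : ℝ) ^ (a + 2) * (((2 : ℕ) : ℝ)) ^ 3 * κ)) := by
      have h8 : (((2 : ℕ) : ℝ)) ^ 3 = 8 := by norm_num
      rw [h8]
      field_simp
    rw [heq]
    exact mul_le_mul_of_nonneg_left hexp (by positivity)

end Pool.Agent.Results.MP_7ab245_nt.FewFrobeniusTraceField
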