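import Mathlib
import Pool.Agent.Run7.h22.Tra4

/-!
# Lehmer's problem and inertia automorphisms of the trace field with few conjugates

Let `f` be an irreducible integer polynomial of degree `n` with Mahler measure `M(f) > 1`, let `K` be a
Galois number field which contains the zeros of `f`, and let `L` be a normal subfield of `K` which
contains the traces `z + z⁻¹` of the zeros `z` of `f`: for instance the Galois closure of the trace
field of `f`, or `L = K`. If `f` is reciprocal, the group of `K` can be larger than the group of `L` by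
`2 ^ (n / 2)`.

Let `p` be any prime number, `P` a prime ideal of `K` above `p`, and let `e` be (an upper bound for) the
ramification index of `p` in `K`. Let `σ` be an automorphism of `K` with `σ x ≡ x ^ q` modulo `P ^ s` for
all algebraic integers `x` of `K`, where `q, s ≥ 1`; so `σ` is in the decomposition group of `P`, and in
the inertia group if `q = 1` (in a higher ramification group if `s > 1`). Let `k` be the number of the
conjugates of the restriction of `σ` to `L` in the Galois group of `L`, and let `w` be a natural number,
`w ≥ k`, `w ≥ 2 e k / s`.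

If `q ≥ 2`, or if `q = 1` and, for some zero `z` of `f`, the quotient `σ z / z` is not a root of unity,
nor is `z σ z` (the latter is not required if `z` is in `L`), then

  `M(f) ≥ min (2, exp (c n / (q w exp (12 √(log (2 w))))))`,

where `c > 0` is an absolute constant. The condition is satisfied if `L` is generated by the numbers
`z + z⁻¹`, the restriction of `σ` to `L` is not the identity, and for zeros `z`, `z'` with different
traces neither `z / z'` nor `z z'` is a root of unity.

In the case of inertia (`q = 1`) the bound does not depend on the prime number `p`, which can be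
arbitrarily large, and it contains Lehmer's inequality for all `f` for which, for some prime number,
an inertia automorphism of the splitting field acts on the trace field as an automorphism with at most
`n ^ (1 - ε) / e` conjugates.

Method. Let `α` be a zero of `f`, and let `H` be the group of the automorphisms which commute with `σ`
on `L`. The automorphisms over `L` map each conjugate of `α` to itself or to its inverse. Either there
are about `√(log (2 w))` conjugates `β` of `α` under `H` such that these signs are sufficiently
independent; then for a proportion `2 ^ (-r)` of the good primes the numbers `β ^ q / σ' β` (with the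
conjugates `σ'` of `σ` which belong to the primes) are the same and congruent to one; they are
multiplicatively independent, and the energy inequality for their monomials gives the bound. Or all
signs are determined by few conjugates; then a subgroup of small index in `H` commutes with `σ` on the
conjugates of `α` under `H`, and acts on the group of the units `γ ≡ 1` modulo `P ^ s` for all the primes
`P` in an orbit of this subgroup, which contains `α ^ q / σ α`. In this group one takes a unit of
minimal height which is not a root of unity: either its conjugates span a space of large dimension, and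
the energy inequality can be applied, or there are few conjugates up to roots of unity (of bounded
order in the group), and Dobrowolski's theorem can be applied.
-/

set_option autoImplicit false

open Polynomial NumberField

namespace Pool.Agent.Results.MP_7ab245_nt.FewInertiaConjugates

/-- the Mahler measure of an integer polynomial -/
noncomputable def M (f : ℤ[X]) : ℝ := (f.map (Int.castRingHom ℂ)).mahlerMeasure

section

variable {K : Type} [Field K] [NumberField K]

variable (K) in
/-- the ramification indices of the prime number `p` in the number field `K` are at most `e` -/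
def RamificationLE (p e : ℕ) : Prop :=
  ∀ P : Ideal (𝓞 K), P.IsPrime → (p : 𝓞 K) ∈ P → (p : 𝓞 K) ∉ P ^ (e + 1)

/-- for some prime ideal `P` above `p`, the automorphism `σ` is congruent to the map `x ↦ x ^ q` modulo
`P ^ s`; for `q = 1` and `s = 1` this means that `σ` is an inertia automorphism above `p` -/
def CongruentToPower (p q s : ℕ) (σ : K ≃ₐ[ℚ] K) : Prop :=
  ∃ P : Ideal (𝓞 K), P.IsPrime ∧ (p : 𝓞 K) ∈ P ∧ ∀ x : 𝓞 K, σ • x - x ^ q ∈ P ^ s

/-- the number of the conjugates of the restriction of `σ` to `L` in the Galois group of `L` -/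
noncomputable def k (L : IntermediateField ℚ K) [Normal ℚ L] (σ : K ≃ₐ[ℚ] K) : ℕ :=
  {τ : L ≃ₐ[ℚ] L | ∃ g : L ≃ₐ[ℚ] L, τ = g * AlgEquiv.restrictNormalHom L σ * g⁻¹}.ncard

/-- the quotient of `σ z` and `z` is not a root of unity, and the product of `σ z` and `z` is not a root
of unity or `z` is in `L` -/
def Moves (L : IntermediateField ℚ K) (σ : K ≃ₐ[ℚ] K) (z : K) : Prop :=
  (∀ m : ℕ, 0 < m → (σ z) ^ m ≠ z ^ m) ∧ (z ∈ L ∨ ∀ m : ℕ, 0 < m → (σ z * z) ^ m ≠ 1)

/-- `L` is generated by the traces `z + z⁻¹` of the zeros `z` of `f`, and for two zeros with different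
traces neither the quotient nor the product is a root of unity -/
def NondegenerateTraces (L : IntermediateField ℚ K) (f : ℤ[X]) : Prop :=
  L = IntermediateField.adjoin ℚ {t : K | ∃ z : K, aeval z f = 0 ∧ t = z + z⁻¹} ∧
    ∀ z z' : K, aeval z f = 0 → aeval z' f = 0 → z + z⁻¹ ≠ z' + z'⁻¹ →
      ∀ m : ℕ, 0 < m → z ^ m ≠ z' ^ m ∧ (z * z') ^ m ≠ 1

end

/-- the lower bound `exp (c n / (q w exp (12 √(log (2 w)))))` -/
noncomputable def bound (c : ℝ) (n q w : ℕ) : ℝ :=
  Real.exp (c * (n / (q * w * Real.exp (12 * Real.sqrt (Real.log (2 * w))))))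

/-- **Lehmer's problem and inertia automorphisms of the trace field with few conjugates.** -/
theorem result : ∃ c : ℝ, 0 < c ∧ ∀ (p q s e w : ℕ), p.Prime → 1 ≤ q → 1 ≤ s →
    ∀ (K : Type) [Field K] [NumberField K], IsGalois ℚ K → RamificationLE K p e →
    ∀ (L : IntermediateField ℚ K) [Normal ℚ L] (σ : K ≃ₐ[ℚ] K), CongruentToPower p q s σ →
    k L σ ≤ w → 2 * e * k L σ ≤ s * w → ∀ f : ℤ[X], Irreducible f → 1 < M f →
      ((∃ z : K, aeval z f = 0 ∧ z + z⁻¹ ∈ L ∧ (2 ≤ q ∨ Moves L σ z)) ∨
        (NondegenerateTraces L f ∧ ∃ x ∈ L, σ x ≠ x)) →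
      min 2 (bound c f.natDegree q w) ≤ M f := by
  obtain ⟨C, hC, h⟩ := Pool.Agent.Run7.h22.poly_trace
  refine ⟨1 / C, by positivity, ?_⟩
  intro p q s e w hp hq hs K _ _ hgal hram L _ σ hσ hw2 hw1 f hf h1 hcase
  obtain ⟨P, hP⟩ := hσ
  rcases le_or_gt 2 (M f) with h2 | h2
  · exact (min_le_left _ _).trans h2
  refine (min_le_right _ _).trans ?_
  have hM : 0 < M f := by linarith
  have hlogM : 0 < Real.log (M f) := Real.log_pos h1
  unfold bound
  rw [← Real.le_log_iff_exp_le hM]
  -- reduction to the first alternative
  have hcase' : ∃ z : K, aeval z f = 0 ∧ z + z⁻¹ ∈ L ∧ (2 ≤ q ∨ Moves L σ z) := by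
    rcases hcase with hcase | ⟨⟨hgen, hnd⟩, x, hxL, hx⟩
    · exact hcase
    · obtain ⟨z, hz0, hzm⟩ : ∃ z : K, aeval z f = 0 ∧ σ (z + z⁻¹) ≠ z + z⁻¹ := by
        by_contra hno
        push Not at hno
        apply hx
        have hle : IntermediateField.adjoin ℚ {t : K | ∃ z : K, aeval z f = 0 ∧ t = z + z⁻¹} ≤
            IntermediateField.fixedField (Subgroup.zpowers σ) := by
          rw [IntermediateField.adjoin_le_iff]
          rintro t ⟨z, hz0, rfl⟩
          rw [SetLike.mem_coe, IntermediateField.mem_fixedField_iff]
          intro g hg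
          obtain ⟨i, rfl⟩ := Subgroup.mem_zpowers_iff.mp hg
          have h5 : σ ∈ MulAction.stabilizer (K ≃ₐ[ℚ] K) (z + z⁻¹) := hno z hz0
          exact (MulAction.stabilizer (K ≃ₐ[ℚ] K) (z + z⁻¹)).zpow_mem h5 i
        rw [← hgen] at hle
        have hx2 := hle hxL
        rw [IntermediateField.mem_fixedField_iff] at hx2
        exact hx2 σ (Subgroup.mem_zpowers σ)
      refine ⟨z, hz0, ?_, Or.inr ?_⟩
      · rw [hgen]
        exact IntermediateField.subset_adjoin _ _ ⟨z, hz0, rfl⟩
      · have h4 : aeval (σ z) f = 0 := by
          have h5 : aeval ((σ : K ≃ₐ[ℚ] K).toAlgHom.restrictScalars ℤ z) f =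
            (σ : K ≃ₐ[ℚ] K).toAlgHom.restrictScalars ℤ (aeval z f) := aeval_algHom_apply _ _ _
          have h6 : aeval (σ z) f = σ (aeval z f) := h5
          rw [h6, hz0, map_zero]
        have h5 : σ z + (σ z)⁻¹ ≠ z + z⁻¹ := by
          rw [← map_inv₀, ← map_add]
          exact hzm
        exact ⟨fun m hm => (hnd _ _ h4 hz0 h5 m hm).1, Or.inr fun m hm => (hnd _ _ h4 hz0 h5 m hm).2⟩
  obtain ⟨α, hα, htr, hmv⟩ := hcase'
  obtain ⟨hU, hr, _⟩ := Pool.Agent.Run7.h22.unit_of_root f hf h1 h2 hα
  have hc : (∀ n : ℕ, 0 < n → (σ α) ^ n ≠ (α ^ q) ^ n) ∧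
      (α ∈ L ∨ ∀ n : ℕ, 0 < n → (σ α) ^ n * (α ^ q) ^ n ≠ 1) := by
    rcases Nat.lt_or_ge q 2 with hq2 | hq2
    · have hq1 : q = 1 := by omega
      rcases hmv with hmv | ⟨hm1, hm2⟩
      · omega
      · refine ⟨fun n hn => ?_, ?_⟩
        · rw [hq1, pow_one]
          exact hm1 n hn
        · rcases hm2 with hm2 | hm2
          · exact Or.inl hm2
          · right
            intro n hn
            rw [hq1, pow_one, ← mul_pow]
            exact hm2 n hn
    · exact ⟨Pool.Agent.Run7.h22.not_power hU hr σ hq2,
        Or.inr (Pool.Agent.Run7.h22.not_power_inv hU hr σ hq2)⟩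
  have key : (f.natDegree : ℝ) ≤ C * (q * w * Real.exp (12 * Real.sqrt (Real.log (2 * w)))) *
      Real.log (M f) :=
    h K p q s e w hp hq hs hram L σ P hP hw2 hw1 f hf h1 h2 α hα htr hc.1 hc.2
  have hpos : 0 ≤ q * w * Real.exp (12 * Real.sqrt (Real.log (2 * w))) := by positivity
  rcases hpos.eq_or_lt with h0 | h0
  · rw [← h0, div_zero, mul_zero]
    exact hlogM.le
  rw [one_div, inv_mul_eq_div, div_div, div_le_iff₀ (by positivity)]
  linarith

end Pool.Agent.Results.MP_7ab245_nt.FewInertiaConjugates
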